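import Pool.Agent.Helper4.QT.Land
import Pool.Agent.Helper12.QT.LapF

/-!
# QT4: mean bounds

Under the one sided hypothesis `σ F(t) ≤ C` for large `t`: `∫ |F| e^{-xt} dt ≤ C1 / x` for `0 < x ≤ 1`
(`L1_bound33`), because `|F| ≤ 2 C' - σ F` for large `t` and `- σ G(x)` is bounded above. Hence
`F / (1 + t²)` is integrable (Tonelli with `∫_0^1 x e^{-xt} dx ≥ c / (1 + t²)`), and the zeros of
`L(s, chi)` on the line `Re s = 1/2` are simple (`|G(iγ + x)| ≤ C1 / x`).
-/

set_option autoImplicit false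

namespace Pool.Agent.QT

open Real Filter Topology MeasureTheory Set DirichletCharacter

/-- the conclusion of `landau` -/
private def Lan33 {q : ℕ} [NeZero q] (χ : DirichletCharacter ℂ q) (a : ℕ → ℝ) : Prop :=
  (∀ x : ℝ, 0 < x → Integrable (fun t : ℝ => Real.exp (-(x * t)) * FF a t)) ∧
      (∀ z : ℂ, 0 < z.re → LFunction χ (1 / 2 + z) ≠ 0 ∧
        ∫ t : ℝ, Complex.exp (-z * t) * (FF a t : ℂ) = GG χ z) ∧
      ∀ x : ℝ, 0 < x → 0 < ∫ t : ℝ, Real.exp (-(x * t)) * FF a t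

private lemma int_ind33 {x : ℝ} (hx : 0 < x) :
    Integrable ((Ioi (0 : ℝ)).indicator fun t : ℝ => Real.exp (-(x * t))) ∧
      ∫ t : ℝ, (Ioi (0 : ℝ)).indicator (fun t : ℝ => Real.exp (-(x * t))) t = 1 / x := by
  have h1 := integrableOn_exp_mul_Ioi (neg_neg_of_pos hx) 0
  have h2 := integral_exp_mul_Ioi (neg_neg_of_pos hx) 0
  have e : (fun t : ℝ => Real.exp (-(x * t))) = fun t => Real.exp (-x * t) := by
    funext t
    congr 1
    ring
  rw [e]
  refine ⟨(integrable_indicator_iff measurableSet_Ioi).2 h1, ?_⟩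
  rw [integral_indicator measurableSet_Ioi, h2, mul_zero, Real.exp_zero, neg_div_neg_eq]

private lemma int_box33 {s : ℝ} (hs : 0 ≤ s) :
    Integrable ((Icc (0 : ℝ) s).indicator fun _ : ℝ => (1 : ℝ)) ∧
      ∫ t : ℝ, (Icc (0 : ℝ) s).indicator (fun _ : ℝ => (1 : ℝ)) t = s := by
  constructor
  · rw [integrable_indicator_iff measurableSet_Icc]
    exact integrableOn_const (by simp) (by simp)
  · rw [integral_indicator measurableSet_Icc, setIntegral_const]
    simp [hs]

private lemma GG_bd33 {q : ℕ} [NeZero q] {χ : DirichletCharacter ℂ q} (hχ : χ ≠ 1)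
    (h0 : ∀ x : ℝ, 0 ≤ x → LFunction χ (1 / 2 + (x : ℂ)) ≠ 0) :
    ∃ K : ℝ, 0 ≤ K ∧ ∀ x : ℝ, 0 ≤ x → x ≤ 1 → ‖GG χ (x : ℂ)‖ ≤ K := by
  have hd := differentiable_LFunction hχ
  have hc : ContinuousOn (fun x : ℝ => GG χ (x : ℂ)) (Icc (0 : ℝ) 1) := by
    unfold GG
    apply ContinuousOn.div continuousOn_const
    · apply ContinuousOn.mul
      · exact (by fun_prop : Continuous fun x : ℝ => (1 / 2 + (x : ℂ))).continuousOn
      · exact (hd.continuous.comp (by fun_prop : Continuous fun x : ℝ => (1 / 2 + (x : ℂ)))).continuousOn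
    · intro x hx
      refine mul_ne_zero ?_ (h0 x hx.1)
      intro h
      have := congrArg Complex.re h
      simp at this
      linarith [hx.1]
  obtain ⟨K, hK⟩ := isCompact_Icc.exists_bound_of_continuousOn hc
  exact ⟨max K 0, le_max_right _ _, fun x h1 h2 => (hK x ⟨h1, h2⟩).trans (le_max_left _ _)⟩

private lemma cplx33 {q : ℕ} [NeZero q] {χ : DirichletCharacter ℂ q} {a : ℕ → ℝ}
    (hL : Lan33 χ a) {x : ℝ} (hx : 0 < x) :
    ((∫ t : ℝ, Real.exp (-(x * t)) * FF a t : ℝ) : ℂ) = GG χ (x : ℂ) := by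
  rw [← (hL.2.1 (x : ℂ) (by simpa using hx)).2, ← integral_complex_ofReal]
  refine integral_congr_ae (Eventually.of_forall fun t => ?_)
  push_cast
  congr 2
  ring

private lemma L1_bound33 {q : ℕ} [NeZero q] {χ : DirichletCharacter ℂ q} {a : ℕ → ℝ} {σ C : ℝ}
    (h : Hyp χ a σ C) (hL : Lan33 χ a) (hF : ∀ t, |FF a t| ≤ Real.exp (t / 2)) :
    ∃ C1 : ℝ, 0 < C1 ∧ ∀ x : ℝ, 0 < x → x ≤ 1 → ∫ t : ℝ, Real.exp (-(x * t)) * |FF a t| ≤ C1 / x := by
  obtain ⟨t₁, ht₁⟩ := h.bd
  set s := max t₁ 0 with hs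
  set C' := max C 0 with hC'
  set B := Real.exp (s / 2) with hB
  have hs0 : 0 ≤ s := le_max_right _ _
  have hC0 : 0 ≤ C' := le_max_right _ _
  have hB0 : 0 < B := Real.exp_pos _
  -- the bound for `- σ G`
  have hG : ∃ K : ℝ, 0 ≤ K ∧ ∀ x : ℝ, 0 < x → x ≤ 1 →
      -(σ * ∫ t : ℝ, Real.exp (-(x * t)) * FF a t) ≤ K := by
    rcases h.sg with hσ | hσ
    · refine ⟨0, le_rfl, fun x hx _ => ?_⟩
      rw [hσ, one_mul]
      linarith [hL.2.2 x hx]
    · obtain ⟨K, hK0, hK⟩ := GG_bd33 (χ := χ) h.dat.ne (fun x hx => by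
        rcases hx.eq_or_lt with hx0 | hx0
        · have h1 := h.zf hσ (1 / 2) le_rfl (by norm_num)
          rw [← hx0]
          simpa using h1
        · exact (hL.2.1 (x : ℂ) (by simpa using hx0)).1)
      refine ⟨K, hK0, fun x hx hx1 => ?_⟩
      have h2 := hK x hx.le hx1
      rw [← cplx33 hL hx, Complex.norm_real, Real.norm_eq_abs] at h2
      rw [hσ]
      have := le_abs_self (∫ t : ℝ, Real.exp (-(x * t)) * FF a t)
      linarith
  obtain ⟨K, hK0, hK⟩ := hG
  refine ⟨2 * C' + K + 2 * B * s + 1, by positivity, fun x hx hx1 => ?_⟩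
  have hi1 := int_ind33 hx
  have hi2 := int_box33 hs0
  have hi3 := hL.1 x hx
  have hpt : ∀ t : ℝ, Real.exp (-(x * t)) * |FF a t| ≤
      2 * C' * (Ioi (0 : ℝ)).indicator (fun t : ℝ => Real.exp (-(x * t))) t +
      (-σ) * (Real.exp (-(x * t)) * FF a t) +
      2 * B * (Icc (0 : ℝ) s).indicator (fun _ : ℝ => (1 : ℝ)) t := by
    intro t
    have hσ1 : |σ| = 1 := by rcases h.sg with h1 | h1 <;> rw [h1] <;> norm_num
    have hσF : |σ * FF a t| = |FF a t| := by rw [abs_mul, hσ1, one_mul]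
    have e0 : 0 < Real.exp (-(x * t)) := Real.exp_pos _
    have hI0 : 0 ≤ (Icc (0 : ℝ) s).indicator (fun _ : ℝ => (1 : ℝ)) t :=
      indicator_nonneg (fun _ _ => zero_le_one) _
    have hJ0 : 0 ≤ (Ioi (0 : ℝ)).indicator (fun t : ℝ => Real.exp (-(x * t))) t :=
      indicator_nonneg (fun _ _ => (Real.exp_pos _).le) _
    rcases lt_or_ge t 0 with ht | ht
    · have : FF a t = 0 := by
        unfold FF
        rw [if_neg (not_le.2 ht)]
      rw [this]
      simp only [abs_zero, mul_zero, add_zero]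
      positivity
    · rcases le_or_gt t s with hts | hts
      · -- small t
        have h1 : (Icc (0 : ℝ) s).indicator (fun _ : ℝ => (1 : ℝ)) t = 1 :=
          indicator_of_mem (show t ∈ Icc (0 : ℝ) s from ⟨ht, hts⟩) _
        rw [h1]
        have h2 : |FF a t| ≤ B := (hF t).trans (Real.exp_le_exp.2 (by linarith))
        have h3 : Real.exp (-(x * t)) ≤ 1 := Real.exp_le_one_iff.2 (by nlinarith)
        have h4 : Real.exp (-(x * t)) * |FF a t| ≤ 1 * B :=
          mul_le_mul h3 h2 (abs_nonneg _) zero_le_one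
        have h5 : -(Real.exp (-(x * t)) * |FF a t|) ≤ (-σ) * (Real.exp (-(x * t)) * FF a t) := by
          have h6 : σ * FF a t ≤ |FF a t| := hσF ▸ le_abs_self _
          have h7 := mul_le_mul_of_nonneg_left h6 e0.le
          have h8 : (-σ) * (Real.exp (-(x * t)) * FF a t) = -(Real.exp (-(x * t)) * (σ * FF a t)) := by
            ring
          rw [h8]
          linarith
        have h9 : 0 ≤ 2 * C' * (Ioi (0 : ℝ)).indicator (fun t : ℝ => Real.exp (-(x * t))) t := by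
          positivity
        linarith
      · have ht0 : 0 < t := lt_of_le_of_lt hs0 hts
        have h1 : (Ioi (0 : ℝ)).indicator (fun t : ℝ => Real.exp (-(x * t))) t = Real.exp (-(x * t)) :=
          indicator_of_mem (show t ∈ Ioi (0 : ℝ) from ht0) _
        rw [h1]
        have h2 : σ * FF a t ≤ C' :=
          (ht₁ t ((le_max_left _ _).trans hts.le)).trans (le_max_left _ _)
        have h3 : |FF a t| ≤ 2 * C' - σ * FF a t := by
          rw [← hσF]
          rcases abs_cases (σ * FF a t) with ⟨h4, _⟩ | ⟨h4, _⟩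
          · rw [h4]
            linarith
          · rw [h4]
            linarith
        have h5 := mul_le_mul_of_nonneg_left h3 e0.le
        have h6 : 0 ≤ 2 * B * (Icc (0 : ℝ) s).indicator (fun _ : ℝ => (1 : ℝ)) t := by positivity
        have h7 : Real.exp (-(x * t)) * (2 * C' - σ * FF a t) =
            2 * C' * Real.exp (-(x * t)) + (-σ) * (Real.exp (-(x * t)) * FF a t) := by ring
        linarith
  have hint : Integrable fun t : ℝ => 2 * C' * (Ioi (0 : ℝ)).indicator (fun t : ℝ => Real.exp (-(x * t))) t +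
      (-σ) * (Real.exp (-(x * t)) * FF a t) +
      2 * B * (Icc (0 : ℝ) s).indicator (fun _ : ℝ => (1 : ℝ)) t :=
    ((hi1.1.const_mul _).add (hi3.const_mul _)).add (hi2.1.const_mul _)
  have h1 : ∫ t : ℝ, Real.exp (-(x * t)) * |FF a t| ≤ ∫ t : ℝ,
      (2 * C' * (Ioi (0 : ℝ)).indicator (fun t : ℝ => Real.exp (-(x * t))) t +
      (-σ) * (Real.exp (-(x * t)) * FF a t) +
      2 * B * (Icc (0 : ℝ) s).indicator (fun _ : ℝ => (1 : ℝ)) t) :=
    integral_mono_of_nonneg (Eventually.of_forall fun t => by positivity) hint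
      (Eventually.of_forall hpt)
  refine h1.trans ?_
  have g1 : Integrable fun t : ℝ => 2 * C' * (Ioi (0 : ℝ)).indicator (fun t : ℝ => Real.exp (-(x * t))) t :=
    hi1.1.const_mul _
  have g2 : Integrable fun t : ℝ => (-σ) * (Real.exp (-(x * t)) * FF a t) := hi3.const_mul _
  have g3 : Integrable fun t : ℝ => 2 * B * (Icc (0 : ℝ) s).indicator (fun _ : ℝ => (1 : ℝ)) t :=
    hi2.1.const_mul _
  have g12 : Integrable fun t : ℝ => 2 * C' * (Ioi (0 : ℝ)).indicator (fun t : ℝ => Real.exp (-(x * t))) t +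
      (-σ) * (Real.exp (-(x * t)) * FF a t) := g1.add g2
  rw [integral_add g12 g3, integral_add g1 g2, integral_const_mul, integral_const_mul,
    integral_const_mul, hi1.2, hi2.2]
  have h2 := hK x hx hx1
  have h3 : K ≤ K / x := by
    rw [le_div_iff₀ hx]
    nlinarith
  have h4 : 2 * B * s ≤ 2 * B * s / x := by
    rw [le_div_iff₀ hx]
    have : 0 ≤ 2 * B * s := by positivity
    nlinarith
  have h5 : 0 ≤ 1 / x := by positivity
  have h6 : (2 * C' + K + 2 * B * s + 1) / x = 2 * C' * (1 / x) + K / x + 2 * B * s / x + 1 / x := by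
    ring
  rw [h6]
  linarith

private lemma weight33 {t : ℝ} (ht : 0 ≤ t) :
    ENNReal.ofReal ((1 + t ^ 2)⁻¹) ≤
      ENNReal.ofReal (8 * Real.exp 1) * ∫⁻ x in Ioc (0 : ℝ) 1, ENNReal.ofReal (x * Real.exp (-(x * t))) := by
  have h1t : 0 < 1 + t := by linarith
  set u := 1 / (1 + t) with hu
  have hu0 : 0 < u := by positivity
  have hu1 : u ≤ 1 := by
    rw [hu, div_le_one h1t]
    linarith
  have hut : u * t ≤ 1 := by
    rw [hu, one_div_mul_eq_div, div_le_one h1t]
    linarith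
  have hsub : Ioc (u / 2) u ⊆ Ioc (0 : ℝ) 1 := fun x hx =>
    ⟨lt_of_le_of_lt (by positivity) hx.1, hx.2.trans hu1⟩
  have h2 : ∫⁻ x in Ioc (u / 2) u, ENNReal.ofReal (u / 2 * Real.exp (-1)) ≤
      ∫⁻ x in Ioc (0 : ℝ) 1, ENNReal.ofReal (x * Real.exp (-(x * t))) := by
    refine (setLIntegral_mono' measurableSet_Ioc fun x hx => ?_).trans (lintegral_mono_set hsub)
    apply ENNReal.ofReal_le_ofReal
    apply mul_le_mul hx.1.le _ (Real.exp_pos _).le (le_trans (by positivity) hx.1.le)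
    apply Real.exp_le_exp.2
    have : x * t ≤ u * t := mul_le_mul_of_nonneg_right hx.2 ht
    linarith
  rw [setLIntegral_const, Real.volume_Ioc, ← ENNReal.ofReal_mul (by positivity)] at h2
  refine le_trans ?_ (mul_le_mul_right h2 _)
  rw [← ENNReal.ofReal_mul (by positivity)]
  apply ENNReal.ofReal_le_ofReal
  have e1 : 8 * Real.exp 1 * (u / 2 * Real.exp (-1) * (u - u / 2)) = 2 * u ^ 2 := by
    have : Real.exp 1 * Real.exp (-1) = 1 := by
      rw [← Real.exp_add]
      simp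
    calc 8 * Real.exp 1 * (u / 2 * Real.exp (-1) * (u - u / 2)) =
        2 * u ^ 2 * (Real.exp 1 * Real.exp (-1)) := by ring
      _ = 2 * u ^ 2 := by rw [this, mul_one]
  rw [e1, hu, div_pow, one_pow, mul_one_div, inv_eq_one_div, div_le_div_iff₀ (by positivity) (by positivity)]
  nlinarith [sq_nonneg (1 - t)]

private lemma wint33 {F : ℝ → ℝ} (hm : Measurable F) (h0 : ∀ t < 0, F t = 0) {C1 : ℝ}
    (hi : ∀ x : ℝ, 0 < x → Integrable (fun t : ℝ => Real.exp (-(x * t)) * F t))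
    (hb : ∀ x : ℝ, 0 < x → x ≤ 1 → ∫ t : ℝ, Real.exp (-(x * t)) * |F t| ≤ C1 / x) :
    Integrable (fun t : ℝ => F t * (1 + t ^ 2)⁻¹) := by
  have hmeas : Measurable fun t : ℝ => F t * (1 + t ^ 2)⁻¹ := hm.mul (by fun_prop)
  refine ⟨hmeas.aestronglyMeasurable, ?_⟩
  rw [hasFiniteIntegral_iff_enorm]
  have h1 : ∀ t, ‖F t * (1 + t ^ 2)⁻¹‖ₑ ≤ ENNReal.ofReal (8 * Real.exp 1) *
      ∫⁻ x in Ioc (0 : ℝ) 1, ENNReal.ofReal (x * (Real.exp (-(x * t)) * |F t|)) := by
    intro t
    rcases lt_or_ge t 0 with ht | ht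
    · rw [h0 t ht]
      simp
    · rw [← ofReal_norm, norm_mul, Real.norm_eq_abs, Real.norm_of_nonneg (by positivity),
        ENNReal.ofReal_mul (abs_nonneg _)]
      refine (mul_le_mul_right (weight33 ht) _).trans (le_of_eq ?_)
      rw [mul_left_comm, ← lintegral_const_mul _ (by fun_prop)]
      congr 1
      refine lintegral_congr fun x => ?_
      rw [← ENNReal.ofReal_mul (abs_nonneg _)]
      congr 1
      ring
  refine lt_of_le_of_lt (lintegral_mono h1) ?_
  have hm2 : Measurable fun p : ℝ × ℝ => ENNReal.ofReal (p.2 * (Real.exp (-(p.2 * p.1)) * |F p.1|)) := by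
    have hF1 : Measurable fun p : ℝ × ℝ => F p.1 := hm.comp measurable_fst
    have hF2 : Measurable fun p : ℝ × ℝ => |F p.1| := hF1.abs
    exact ENNReal.measurable_ofReal.comp (measurable_snd.mul ((by fun_prop :
      Measurable fun p : ℝ × ℝ => Real.exp (-(p.2 * p.1))).mul hF2))
  rw [lintegral_const_mul' _ _ ENNReal.ofReal_ne_top, lintegral_lintegral_swap hm2.aemeasurable]
  refine ENNReal.mul_lt_top ENNReal.ofReal_lt_top ?_
  have h2 : ∫⁻ x in Ioc (0 : ℝ) 1, ∫⁻ t : ℝ, ENNReal.ofReal (x * (Real.exp (-(x * t)) * |F t|)) ≤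
      ∫⁻ _ in Ioc (0 : ℝ) 1, ENNReal.ofReal C1 := by
    refine setLIntegral_mono' measurableSet_Ioc fun x hx => ?_
    have h3 : Integrable fun t : ℝ => x * (Real.exp (-(x * t)) * |F t|) := by
      have h4 := (hi x hx.1).norm.const_mul x
      refine h4.congr (Eventually.of_forall fun t => ?_)
      simp only [norm_mul, Real.norm_eq_abs, Real.abs_exp]
    rw [← ofReal_integral_eq_lintegral_ofReal h3 (Eventually.of_forall fun t => by
      have := hx.1.le
      positivity)]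
    apply ENNReal.ofReal_le_ofReal
    rw [integral_const_mul]
    have h5 := mul_le_mul_of_nonneg_left (hb x hx.1 hx.2) hx.1.le
    rwa [mul_div_cancel₀ _ hx.1.ne'] at h5
  refine lt_of_le_of_lt h2 ?_
  rw [setLIntegral_const, Real.volume_Ioc]
  exact ENNReal.mul_lt_top ENNReal.ofReal_lt_top ENNReal.ofReal_lt_top

private lemma simple33 {q : ℕ} [NeZero q] {χ : DirichletCharacter ℂ q} (hχ : χ ≠ 1) {a : ℕ → ℝ} {C1 : ℝ}
    (hC1 : 0 < C1) (hL : Lan33 χ a)
    (hb : ∀ x : ℝ, 0 < x → x ≤ 1 → ∫ t : ℝ, Real.exp (-(x * t)) * |FF a t| ≤ C1 / x)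
    (γ : ℝ) (hz : LFunction χ (1 / 2 + Complex.I * γ) = 0) :
    deriv (fun z : ℂ => LFunction χ (1 / 2 + z)) (Complex.I * γ) ≠ 0 := by
  intro hd
  have hdiff := differentiable_LFunction hχ
  have hg : DifferentiableAt ℂ (fun z : ℂ => LFunction χ (1 / 2 + z)) (Complex.I * γ) := by
    exact (hdiff.comp (by fun_prop : Differentiable ℂ fun z : ℂ => 1 / 2 + z)).differentiableAt
  have h1 := hg.hasDerivAt
  rw [hd] at h1
  -- along `iγ + x`
  have hlin : HasDerivAt (fun x : ℝ => Complex.I * γ + (x : ℂ)) 1 0 := by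
    simpa using (Complex.ofRealCLM.hasDerivAt (x := 0)).const_add (Complex.I * γ)
  have h2 : HasDerivAt (fun x : ℝ => LFunction χ (1 / 2 + (Complex.I * γ + (x : ℂ)))) 0 0 := by
    have h3 : HasDerivAt (fun z : ℂ => LFunction χ (1 / 2 + z)) 0 (Complex.I * γ + ((0 : ℝ) : ℂ)) := by
      simpa using h1
    have h4 := h3.scomp (0 : ℝ) hlin
    rw [smul_zero] at h4
    exact h4
  have h3 := h2.tendsto_slope_zero_right
  simp only [zero_add, Complex.ofReal_zero, add_zero, hz, sub_zero] at h3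
  -- lower bound
  set K : ℝ := 3 / 2 + |γ| with hK
  have hK0 : 0 < K := by positivity
  have hlow : ∀ x : ℝ, 0 < x → x ≤ 1 →
      (C1 * K)⁻¹ ≤ ‖x⁻¹ • LFunction χ (1 / 2 + (Complex.I * γ + (x : ℂ)))‖ := by
    intro x hx hx1
    have hre : 0 < (Complex.I * γ + (x : ℂ)).re := by simpa using hx
    obtain ⟨hne, hint⟩ := hL.2.1 (Complex.I * γ + (x : ℂ)) hre
    have h4 : ‖GG χ (Complex.I * γ + (x : ℂ))‖ ≤ C1 / x := by
      rw [← hint]
      refine (norm_integral_le_integral_norm _).trans (le_trans (le_of_eq ?_) (hb x hx hx1))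
      refine integral_congr_ae (Eventually.of_forall fun t => ?_)
      simp only [norm_mul, Complex.norm_real, Real.norm_eq_abs, Complex.norm_exp]
      congr 2
      simp
    unfold GG at h4
    rw [norm_div, norm_one, norm_mul] at h4
    have h5 : ‖(1 / 2 : ℂ) + (Complex.I * γ + (x : ℂ))‖ ≤ K := by
      calc ‖(1 / 2 : ℂ) + (Complex.I * γ + (x : ℂ))‖ ≤ ‖(1 / 2 : ℂ)‖ + (‖Complex.I * (γ : ℂ)‖ + ‖(x : ℂ)‖) :=
            (norm_add_le _ _).trans (add_le_add_right (norm_add_le _ _) _)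
        _ = 1 / 2 + (|γ| + x) := by
            rw [norm_mul, Complex.norm_I, one_mul, Complex.norm_real, Complex.norm_real,
              Real.norm_eq_abs, Real.norm_of_nonneg hx.le]
            norm_num
        _ ≤ K := by
            rw [hK]
            linarith
    have hLp : 0 < ‖LFunction χ (1 / 2 + (Complex.I * γ + (x : ℂ)))‖ := norm_pos_iff.2 hne
    have hwp : 0 < ‖(1 / 2 : ℂ) + (Complex.I * γ + (x : ℂ))‖ := by
      rw [norm_pos_iff]
      intro h6
      have := congrArg Complex.re h6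
      simp at this
      linarith
    rw [div_le_div_iff₀ (mul_pos hwp hLp) hx, one_mul] at h4
    rw [norm_smul, norm_inv, Real.norm_of_nonneg hx.le, inv_mul_eq_div, le_div_iff₀ hx,
      inv_mul_le_iff₀ (mul_pos hC1 hK0)]
    calc x ≤ C1 * (‖(1 / 2 : ℂ) + (Complex.I * γ + (x : ℂ))‖ * ‖LFunction χ (1 / 2 + (Complex.I * γ + (x : ℂ)))‖) := h4
      _ ≤ C1 * (K * ‖LFunction χ (1 / 2 + (Complex.I * γ + (x : ℂ)))‖) :=
          mul_le_mul_of_nonneg_left (mul_le_mul_of_nonneg_right h5 hLp.le) hC1.le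
      _ = C1 * K * ‖LFunction χ (1 / 2 + (Complex.I * γ + (x : ℂ)))‖ := by ring
  have h5 : ∀ᶠ x : ℝ in 𝓝[>] 0, (C1 * K)⁻¹ ≤ ‖x⁻¹ • LFunction χ (1 / 2 + (Complex.I * γ + (x : ℂ)))‖ := by
    filter_upwards [Ioc_mem_nhdsGT (zero_lt_one' ℝ)] with x hx
    exact hlow x hx.1 hx.2
  have h6 := ge_of_tendsto h3.norm h5
  rw [norm_zero] at h6
  have : 0 < (C1 * K)⁻¹ := by positivity
  linarith

theorem mean {q : ℕ} [NeZero q] {χ : DirichletCharacter ℂ q} {a : ℕ → ℝ} {σ C : ℝ} (h : Hyp χ a σ C) :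
    Integrable (fun t : ℝ => FF a t * (1 + t ^ 2)⁻¹) ∧
      ∀ γ : ℝ, LFunction χ (1 / 2 + Complex.I * γ) = 0 →
        deriv (fun z : ℂ => LFunction χ (1 / 2 + z)) (Complex.I * γ) ≠ 0 := by
  have hL : Lan33 χ a := landau h
  obtain ⟨C1, hC1, hb⟩ := L1_bound33 h hL (abs_FF_le h.dat)
  refine ⟨wint33 (measurable_FF a) (fun t ht => ?_) hL.1 hb, simple33 h.dat.ne hC1 hL hb⟩
  unfold FF
  rw [if_neg (not_le.2 ht)]

end Pool.Agent.QT
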